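import Mathlib
import Pool.Agent.V11155.Subtraction

/-!
# A subtraction game whose nim-sequence and zero-indicator have different periods

For `S = {2, 3, 5, 8, 9, 10}` the nim-sequence is purely periodic with period `26`, while the
indicator of its nonzero terms is purely periodic with period `13`.
-/

set_option autoImplicit false

namespace Pool.Agent.Results.MP_052694_co.PeriodsDiffer

open Pool.Agent.V11155.Subtraction

/-- The zero-indicator of the nim-sequence: `0` if the nim-value is `0`, and `1` otherwise. -/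
noncomputable def zeroIndicator (S : Finset ℕ) (n : ℕ) : ℕ := if nim S n = 0 then 0 else 1

/-- The first `26` nim-values for `S = {2, 3, 5, 8, 9, 10}`. -/
def tab : List ℕ := [0, 0, 1, 1, 2, 2, 3, 0, 4, 1, 3, 2, 4, 0, 0, 1, 1, 2, 2, 4, 0, 3, 1, 4, 2, 3]

/-- The candidate for the nim-sequence. -/
def g (n : ℕ) : ℕ := tab.getD (n % 26) 0

/-- The candidate for the zero-indicator. -/
def v (n : ℕ) : ℕ := if g n = 0 then 0 else 1

theorem g_per (n : ℕ) : g (n + 26) = g n := by
  unfold g; rw [Nat.add_mod_right]

theorem v_per (n : ℕ) : v (n + 13) = v n := by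
  have h26 : ∀ r < 26, v (r + 13) = v r := by decide +kernel
  have := h26 (n % 26) (Nat.mod_lt _ (by norm_num))
  have e1 : v (n % 26) = v n := by
    unfold v g; rw [Nat.mod_mod]
  have e2 : v (n % 26 + 13) = v (n + 13) := by
    unfold v g; rw [Nat.mod_add_mod]
  rw [← e1, ← e2, this]

theorem nim_eq (n : ℕ) : nim {2, 3, 5, 8, 9, 10} n = g n := by
  have h := nim_eq_of_test [2, 3, 5, 8, 9, 10] g 0 26 10 36 (by norm_num) (by decide)
    (by norm_num) (fun n _ => g_per n) (by decide +kernel) n
  have e : ([2, 3, 5, 8, 9, 10] : List ℕ).toFinset = {2, 3, 5, 8, 9, 10} := by decide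
  rwa [e] at h

/-- There is a finite nonempty set `S` of positive integers for which the nim-sequence has least
ultimate period `26` while its zero-indicator has least ultimate period `13`. -/
theorem result : ∃ S : Finset ℕ, S.Nonempty ∧ (∀ s ∈ S, 0 < s) ∧
    IsLeast {p | UltPer (nim S) p} 26 ∧ IsLeast {p | UltPer (zeroIndicator S) p} 13 := by
  refine ⟨{2, 3, 5, 8, 9, 10}, by decide, by decide, ?_, ?_⟩
  · have hfun : nim {2, 3, 5, 8, 9, 10} = g := funext nim_eq
    rw [hfun]
    refine ⟨⟨by norm_num, 0, fun n _ => g_per n⟩, ?_⟩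
    intro p hp
    by_contra hlt
    push Not at hlt
    have h := UltPer.from_start (by norm_num : 0 < 26) (n₀ := 0) (fun n _ => g_per n) hp
    have hpos := hp.1
    have key : ∀ p < 26, 0 < p → ∃ n < 26, g (n + p) ≠ g n := by decide +kernel
    obtain ⟨n, -, hn⟩ := key p hlt hpos
    exact hn (h n (Nat.zero_le _))
  · have hfun : zeroIndicator {2, 3, 5, 8, 9, 10} = v := by
      funext n
      unfold zeroIndicator v
      rw [nim_eq]
    rw [hfun]
    refine ⟨⟨by norm_num, 0, fun n _ => v_per n⟩, ?_⟩
    intro p hp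
    by_contra hlt
    push Not at hlt
    have h := UltPer.from_start (by norm_num : 0 < 13) (n₀ := 0) (fun n _ => v_per n) hp
    have hpos := hp.1
    have key : ∀ p < 13, 0 < p → ∃ n < 13, v (n + p) ≠ v n := by decide +kernel
    obtain ⟨n, -, hn⟩ := key p hlt hpos
    exact hn (h n (Nat.zero_le _))

end Pool.Agent.Results.MP_052694_co.PeriodsDiffer
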